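import Pool.Agent.N984.QX.Stm

/-!
# Project QX (helper984): leaf RED (measuring one qubit)
-/

set_option autoImplicit false

namespace Pool.Agent.N986.QX

open Pool.Agent.N984.QX

/-! ### The supremum -/

lemma numMixed_le {n : ℕ} (k : ℕ) (ψ : (Fin n → ZMod 2) → ℂ) :
    numMixed k ψ ≤ n.choose k := by
  classical
  unfold numMixed
  refine (Finset.card_filter_le _ _).trans ?_
  rw [Finset.card_powersetCard, Finset.card_univ, Fintype.card_fin]

lemma bdd (n k : ℕ) :
    BddAbove {m | ∃ ψ : (Fin n → ZMod 2) → ℂ, Normalised ψ ∧ m = numMixed k ψ} := by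
  refine ⟨n.choose k, ?_⟩
  rintro m ⟨ψ, _, rfl⟩
  exact numMixed_le k ψ

lemma le_Qex {n : ℕ} (k : ℕ) (ψ : (Fin n → ZMod 2) → ℂ) (h : Normalised ψ) :
    numMixed k ψ ≤ Qex n k :=
  le_csSup (bdd n k) ⟨ψ, h, rfl⟩

lemma normalised_delta (n : ℕ) :
    Normalised (fun x : Fin n → ZMod 2 => if x = 0 then (1 : ℂ) else 0) := by
  classical
  unfold Normalised
  rw [Finset.sum_eq_single (0 : Fin n → ZMod 2)]
  · simp
  · intro b _ hb
    simp [hb]
  · intro h
    exact absurd (Finset.mem_univ _) h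

lemma attained (n k : ℕ) :
    ∃ ψ : (Fin n → ZMod 2) → ℂ, Normalised ψ ∧ Qex n k = numMixed k ψ :=
  Nat.sSup_mem (s := {m | ∃ ψ : (Fin n → ZMod 2) → ℂ, Normalised ψ ∧ m = numMixed k ψ})
    ⟨_, _, normalised_delta n, rfl⟩ (bdd n k)

/-! ### Maximally mixed in terms of all configurations -/

lemma sum_glue {n : ℕ} (A : Finset (Fin n)) {E : Type*} [AddCommMonoid E]
    (f : (Fin n → ZMod 2) → E) :
    ∑ x, f x = ∑ a, ∑ b, f (glue A a b) := by
  classical
  rw [← Fintype.sum_prod_type']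
  exact (Fintype.sum_equiv (Equiv.piEquivPiSubtypeProd (fun i => i ∈ A) (fun _ => ZMod 2)).symm
    (fun p => f (glue A p.1 p.2)) f (fun p => rfl)).symm

lemma mm_iff {n : ℕ} (ψ : (Fin n → ZMod 2) → ℂ) (A : Finset (Fin n)) :
    MaxMixed ψ A ↔ ∀ a a', ∑ b, ψ (glue A a b) * star (ψ (glue A a' b)) =
      if a = a' then ((2 : ℂ) ^ A.card)⁻¹ else 0 := by
  classical
  unfold MaxMixed
  rw [← Matrix.ext_iff]
  refine forall_congr' fun a => forall_congr' fun a' => ?_
  rw [Matrix.mul_apply, Matrix.smul_apply, Matrix.one_apply]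
  simp only [mat, Matrix.of_apply, Matrix.conjTranspose_apply, smul_eq_mul, mul_ite, mul_one,
    mul_zero]

/-- the configuration which is `x` on `A` and `z` outside -/
def mg {n : ℕ} (A : Finset (Fin n)) (x z : Fin n → ZMod 2) : Fin n → ZMod 2 :=
  fun i => if i ∈ A then x i else z i

lemma mg_glue {n : ℕ} (A : Finset (Fin n)) (x : Fin n → ZMod 2)
    (a : {i // i ∈ A} → ZMod 2) (b : {i // i ∉ A} → ZMod 2) :
    mg A x (glue A a b) = glue A (fun i => x i) b := by
  funext i
  unfold mg glue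
  by_cases h : i ∈ A
  · simp [h]
  · simp [h]

lemma card_A {n : ℕ} (A : Finset (Fin n)) :
    Fintype.card ({i // i ∈ A} → ZMod 2) = 2 ^ A.card := by
  classical
  rw [Fintype.card_fun, ZMod.card, Fintype.card_coe]

lemma mm_iff' {n : ℕ} (ψ : (Fin n → ZMod 2) → ℂ) (A : Finset (Fin n)) :
    MaxMixed ψ A ↔ ∀ x y : Fin n → ZMod 2, ∑ z, ψ (mg A x z) * star (ψ (mg A y z)) =
      if (∀ i ∈ A, x i = y i) then 1 else 0 := by
  classical
  have h2 : (2 : ℂ) ^ A.card ≠ 0 := pow_ne_zero _ two_ne_zero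
  have key : ∀ x y : Fin n → ZMod 2, ∑ z, ψ (mg A x z) * star (ψ (mg A y z)) =
      (2 : ℂ) ^ A.card * ∑ b, ψ (glue A (fun i => x i) b) * star (ψ (glue A (fun i => y i) b)) := by
    intro x y
    rw [sum_glue A]
    simp only [mg_glue]
    rw [Finset.sum_const, Finset.card_univ, card_A, nsmul_eq_mul]
    push_cast
    rfl
  rw [mm_iff]
  constructor
  · intro h x y
    rw [key, h]
    by_cases hxy : ∀ i ∈ A, x i = y i
    · have : (fun i : {i // i ∈ A} => x i) = fun i : {i // i ∈ A} => y i :=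
        funext fun i => hxy i i.2
      rw [if_pos this, if_pos hxy, mul_inv_cancel₀ h2]
    · have : (fun i : {i // i ∈ A} => x i) ≠ fun i : {i // i ∈ A} => y i :=
        fun h => hxy fun i hi => congrFun h ⟨i, hi⟩
      rw [if_neg this, if_neg hxy, mul_zero]
  · intro h a a'
    have e1 := h (glue A a 0) (glue A a' 0)
    rw [key] at e1
    have r1 : ∀ c : {i // i ∈ A} → ZMod 2,
        (fun i : {i // i ∈ A} => glue A c (0 : {i // i ∉ A} → ZMod 2) i) = c := by
      intro c
      funext i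
      unfold glue
      rw [dif_pos i.2]
    rw [r1, r1] at e1
    by_cases haa : a = a'
    · subst haa
      rw [if_pos (fun i _ => rfl)] at e1
      rw [if_pos rfl]
      exact eq_inv_of_mul_eq_one_right e1
    · have : ¬ ∀ i ∈ A, glue A a 0 i = glue A a' 0 i := by
        intro hh
        apply haa
        rw [← r1 a, ← r1 a']
        exact funext fun i => hh i i.2
      rw [if_neg this] at e1
      rw [if_neg haa]
      exact (mul_eq_zero.1 e1).resolve_left h2

lemma mm_norm {n : ℕ} (ψ : (Fin n → ZMod 2) → ℂ) (A : Finset (Fin n)) (h : MaxMixed ψ A) :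
    Normalised ψ := by
  classical
  rw [mm_iff] at h
  unfold Normalised
  have h1 : ((∑ x, ‖ψ x‖ ^ 2 : ℝ) : ℂ) = 1 := by
    push_cast
    have h2 : ∀ x, ((‖ψ x‖ : ℂ)) ^ 2 = ψ x * star (ψ x) := by
      intro x
      exact (Complex.mul_conj' (ψ x)).symm
    simp only [h2]
    rw [sum_glue A (fun x => ψ x * star (ψ x))]
    simp only [h, if_true]
    rw [Finset.sum_const, Finset.card_univ, card_A, nsmul_eq_mul]
    push_cast
    exact mul_inv_cancel₀ (pow_ne_zero _ two_ne_zero)
  exact_mod_cast h1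

/-! ### Measuring one qubit -/

/-- the state after the measurement of qubit `i` -/
noncomputable def meas {n : ℕ} (ψ : (Fin (n + 1) → ZMod 2) → ℂ) (i : Fin (n + 1)) :
    (Fin n → ZMod 2) → ℂ :=
  fun x => (Real.sqrt 2 : ℂ) * ψ (Fin.insertNth (α := fun _ => ZMod 2) i 0 x)

/-- the set `A` without `i`, renumbered -/
noncomputable def drop {n : ℕ} (i : Fin (n + 1)) (A : Finset (Fin (n + 1))) : Finset (Fin n) :=
  A.preimage i.succAbove (Fin.succAbove_right_injective.injOn)

lemma mem_drop {n : ℕ} (i : Fin (n + 1)) (A : Finset (Fin (n + 1))) (j : Fin n) :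
    j ∈ drop i A ↔ i.succAbove j ∈ A := by
  unfold drop
  rw [Finset.mem_preimage]

lemma mg_ins {n : ℕ} (i : Fin (n + 1)) (A : Finset (Fin (n + 1))) (hi : i ∈ A)
    (x z : Fin n → ZMod 2) (c : ZMod 2) :
    Fin.insertNth (α := fun _ => ZMod 2) i 0 (mg (drop i A) x z) =
      mg A (Fin.insertNth (α := fun _ => ZMod 2) i 0 x)
        (Fin.insertNth (α := fun _ => ZMod 2) i c z) := by
  funext j
  induction j using Fin.succAboveCases i with
  | x => 
    rw [Fin.insertNth_apply_same]
    unfold mg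
    rw [if_pos hi, Fin.insertNth_apply_same]
  | p j =>
    rw [Fin.insertNth_apply_succAbove]
    unfold mg
    rw [Fin.insertNth_apply_succAbove, Fin.insertNth_apply_succAbove]
    simp only [mem_drop]

lemma meas_mm {n : ℕ} (ψ : (Fin (n + 1) → ZMod 2) → ℂ) (i : Fin (n + 1))
    (A : Finset (Fin (n + 1))) (hi : i ∈ A) (h : MaxMixed ψ A) :
    MaxMixed (meas ψ i) (drop i A) := by
  classical
  rw [mm_iff'] at h ⊢
  intro x y
  have e1 := h (Fin.insertNth (α := fun _ => ZMod 2) i 0 x)
    (Fin.insertNth (α := fun _ => ZMod 2) i 0 y)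
  rw [← Fintype.sum_equiv (Fin.insertNthEquiv (fun _ => ZMod 2) i)
    (fun p => ψ (mg A (Fin.insertNth (α := fun _ => ZMod 2) i 0 x)
        (Fin.insertNth (α := fun _ => ZMod 2) i p.1 p.2)) *
      star (ψ (mg A (Fin.insertNth (α := fun _ => ZMod 2) i 0 y)
        (Fin.insertNth (α := fun _ => ZMod 2) i p.1 p.2)))) _ (fun p => rfl)] at e1
  rw [Fintype.sum_prod_type] at e1
  simp only [← mg_ins i A hi] at e1
  rw [Finset.sum_const, Finset.card_univ, ZMod.card, nsmul_eq_mul] at e1
  have hs : ((Real.sqrt 2 : ℝ) : ℂ) * star ((Real.sqrt 2 : ℝ) : ℂ) = 2 := by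
    have h0 : star ((Real.sqrt 2 : ℝ) : ℂ) = ((Real.sqrt 2 : ℝ) : ℂ) := Complex.conj_ofReal _
    rw [h0, ← Complex.ofReal_mul, Real.mul_self_sqrt (by norm_num)]
    norm_num
  have hc : (∀ j ∈ A, Fin.insertNth (α := fun _ => ZMod 2) i 0 x j =
      Fin.insertNth (α := fun _ => ZMod 2) i 0 y j) ↔ ∀ j ∈ drop i A, x j = y j := by
    constructor
    · intro hh j hj
      have := hh _ ((mem_drop i A j).1 hj)
      rwa [Fin.insertNth_apply_succAbove, Fin.insertNth_apply_succAbove] at this
    · intro hh j hj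
      induction j using Fin.succAboveCases i with
      | x => rw [Fin.insertNth_apply_same, Fin.insertNth_apply_same]
      | p j =>
        rw [Fin.insertNth_apply_succAbove, Fin.insertNth_apply_succAbove]
        exact hh j ((mem_drop i A j).2 hj)
  rw [if_congr hc rfl rfl] at e1
  rw [← e1, Finset.mul_sum]
  refine Finset.sum_congr rfl fun z _ => ?_
  unfold meas
  rw [star_mul']
  push_cast
  rw [← hs]
  ring

lemma card_drop {n : ℕ} (i : Fin (n + 1)) (A : Finset (Fin (n + 1))) (hi : i ∈ A) :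
    (drop i A).card + 1 = A.card := by
  classical
  have h1 : (drop i A).map i.succAboveEmb = A.erase i := by
    ext j
    rw [Finset.mem_map, Finset.mem_erase]
    constructor
    · rintro ⟨l, hl, rfl⟩
      exact ⟨Fin.succAbove_ne i l, (mem_drop i A l).1 hl⟩
    · rintro ⟨hj, hA⟩
      obtain ⟨l, rfl⟩ := Fin.exists_succAbove_eq hj
      exact ⟨l, (mem_drop i A l).2 hA, rfl⟩
  rw [← Finset.card_map i.succAboveEmb, h1, Finset.card_erase_add_one hi]

lemma drop_inj {n : ℕ} (i : Fin (n + 1)) (A A' : Finset (Fin (n + 1))) (hi : i ∈ A)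
    (hi' : i ∈ A') (h : drop i A = drop i A') : A = A' := by
  ext j
  induction j using Fin.succAboveCases i with
  | x => exact ⟨fun _ => hi', fun _ => hi⟩
  | p j => rw [← mem_drop, ← mem_drop, h]

theorem t_RED : S_RED := by
  classical
  intro n k
  obtain ⟨ψ, _, hQ⟩ := attained (n + 1) (k + 1)
  rw [hQ]
  set F := (Finset.powersetCard (k + 1) (Finset.univ : Finset (Fin (n + 1)))).filter
    (MaxMixed ψ) with hF
  have hFm : ∀ A, A ∈ F ↔ A.card = k + 1 ∧ MaxMixed ψ A := by
    intro A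
    rw [hF, Finset.mem_filter, Finset.mem_powersetCard]
    constructor
    · rintro ⟨⟨_, h1⟩, h2⟩
      exact ⟨h1, h2⟩
    · rintro ⟨h1, h2⟩
      exact ⟨⟨Finset.subset_univ _, h1⟩, h2⟩
  have hN : numMixed (k + 1) ψ = F.card := by
    unfold numMixed
    rw [hF]
  rw [hN]
  -- every qubit
  have h1 : ∀ i : Fin (n + 1), (F.filter (fun A => i ∈ A)).card ≤ Qex n k := by
    intro i
    rcases (F.filter (fun A => i ∈ A)).eq_empty_or_nonempty with he | ⟨A0, hA0⟩
    · rw [he, Finset.card_empty]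
      exact Nat.zero_le _
    · rw [Finset.mem_filter, hFm] at hA0
      have hn : Normalised (meas ψ i) := mm_norm _ _ (meas_mm ψ i A0 hA0.2 hA0.1.2)
      refine le_trans ?_ (le_Qex k (meas ψ i) hn)
      unfold numMixed
      refine Finset.card_le_card_of_injOn (drop i) ?_ ?_
      · intro A hA
        rw [Finset.mem_coe, Finset.mem_filter, hFm] at hA
        rw [Finset.mem_coe, Finset.mem_filter, Finset.mem_powersetCard]
        refine ⟨⟨Finset.subset_univ _, ?_⟩, meas_mm ψ i A hA.2 hA.1.2⟩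
        have := card_drop i A hA.2
        omega
      · intro A hA A' hA' h
        rw [Finset.mem_coe, Finset.mem_filter] at hA hA'
        exact drop_inj i A A' hA.2 hA'.2 h
  have h2 : ∑ i : Fin (n + 1), (F.filter (fun A => i ∈ A)).card = (k + 1) * F.card := by
    have h3 : ∀ i : Fin (n + 1), (F.filter (fun A => i ∈ A)).card =
        ∑ A ∈ F, if i ∈ A then 1 else 0 := by
      intro i
      rw [Finset.card_filter]
    simp only [h3]
    rw [Finset.sum_comm]
    have h4 : ∀ A ∈ F, (∑ i : Fin (n + 1), if i ∈ A then 1 else 0) = k + 1 := by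
      intro A hA
      rw [← Finset.card_filter, Finset.filter_mem_eq_inter, Finset.univ_inter]
      exact ((hFm A).1 hA).1
    rw [Finset.sum_congr rfl h4, Finset.sum_const, smul_eq_mul, mul_comm]
  rw [← h2]
  refine (Finset.sum_le_sum fun i _ => h1 i).trans ?_
  rw [Finset.sum_const, Finset.card_univ, Fintype.card_fin, smul_eq_mul]

end Pool.Agent.N986.QX
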