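import Pool.Agent.N984.QX.Stm

/-!
# Project QX (helper984): leaf NE
-/

set_option autoImplicit false

namespace Pool.Agent.N986.QX

open Pool.Agent.N984.QX

/-- the code of the vectors fixed by the reversal of the coordinates -/
def revCode (n : ℕ) : Submodule (ZMod 2) (Vc n) where
  carrier := {v | ∀ i, v i = v (Fin.rev i)}
  add_mem' := by
    intro a b ha hb i
    simp only [Pi.add_apply]
    rw [ha i, hb i]
  zero_mem' := by
    intro i
    rfl
  smul_mem' := by
    intro c x hx i
    simp only [Pi.smul_apply]
    rw [hx i]

lemma mem_rev {n : ℕ} (v : Vc n) : v ∈ revCode n ↔ ∀ i, v i = v (Fin.rev i) := Iff.rfl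

lemma B_single {n : ℕ} (v : Vc n) (i : Fin n) (c : ZMod 2 × ZMod 2) :
    B v (Pi.single i c) = (v i).1 * c.2 + (v i).2 * c.1 := by
  unfold B
  rw [Finset.sum_eq_single i]
  · simp
  · intro j _ hj
    simp [Pi.single_eq_of_ne hj]
  · intro h
    exact absurd (Finset.mem_univ i) h

lemma B_add {n : ℕ} (v w w' : Vc n) : B v (w + w') = B v w + B v w' := by
  unfold B
  rw [← Finset.sum_add_distrib]
  refine Finset.sum_congr rfl fun i _ => ?_
  simp only [Pi.add_apply, Prod.fst_add, Prod.snd_add]
  ring

lemma two_zero (x : ZMod 2) : x + x = 0 := by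
  revert x
  decide

lemma rev_ne {n : ℕ} (hn : Even n) (i : Fin n) : Fin.rev i ≠ i := by
  intro h
  have h1 := congrArg Fin.val h
  rw [Fin.val_rev] at h1
  obtain ⟨m, hm⟩ := hn
  omega

theorem t_NE : S_NE := by
  intro n hn
  refine ⟨revCode n, ?_, ?_⟩
  · intro v
    constructor
    · intro hv w hw
      unfold B
      refine Finset.sum_involution (fun i _ => Fin.rev i) ?_ ?_ ?_ ?_
      · intro i _
        rw [← (mem_rev v).1 hv i, ← (mem_rev w).1 hw i]
        exact two_zero _
      · intro i _ _
        exact rev_ne hn i
      · intro i _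
        exact Finset.mem_univ _
      · intro i _
        exact Fin.rev_rev i
    · intro h
      rw [mem_rev]
      intro i
      have key : ∀ c : ZMod 2 × ZMod 2,
          (Pi.single i c + Pi.single (Fin.rev i) c : Vc n) ∈ revCode n := by
        intro c
        rw [mem_rev]
        intro j
        have hne := rev_ne hn i
        simp only [Pi.add_apply]
        by_cases h1 : j = i
        · subst h1
          rw [Pi.single_eq_same, Pi.single_eq_of_ne (rev_ne hn j).symm, Pi.single_eq_same,
            Pi.single_eq_of_ne (rev_ne hn j), add_comm]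
        · by_cases h2 : j = Fin.rev i
          · subst h2
            rw [Pi.single_eq_same, Pi.single_eq_of_ne h1, Fin.rev_rev, Pi.single_eq_same,
              Pi.single_eq_of_ne (Ne.symm h1), add_comm]
          · have h3 : Fin.rev j ≠ i := fun h => h2 (by rw [← h, Fin.rev_rev])
            have h4 : Fin.rev j ≠ Fin.rev i := fun h => h1 (Fin.rev_injective h)
            rw [Pi.single_eq_of_ne h1, Pi.single_eq_of_ne h2, Pi.single_eq_of_ne h3,
              Pi.single_eq_of_ne h4]
      have e1 := h _ (key (0, 1))
      have e2 := h _ (key (1, 0))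
      rw [B_add, B_single, B_single] at e1 e2
      simp only [mul_one, mul_zero, add_zero, zero_add] at e1 e2
      have aux : ∀ x y : ZMod 2, x + y = 0 → x = y := by decide
      exact Prod.ext (aux _ _ e1) (aux _ _ e2)
  · intro v hv
    rw [mem_rev] at hv ⊢
    intro i
    unfold J
    rw [← hv i]

end Pool.Agent.N986.QX
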