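import Pool.Agent.N987.QX.Stm4

/-!
# Project QX (helper987): leaf LIMX
-/

set_option autoImplicit false

namespace Pool.Agent.N986.QX

open Pool.Agent.N984.QX Pool.Agent.N987.QX Filter Topology Finset

/-- the factors -/
noncomputable def fa (c j : ℕ) : ℝ := 1 - 1 / (2 : ℝ) ^ (c + 2 * (j + 1))

lemma fa_pos (c j : ℕ) : 0 ≤ fa c j := by
  unfold fa
  have : 1 / (2 : ℝ) ^ (c + 2 * (j + 1)) ≤ 1 := by
    rw [div_le_one (by positivity)]
    exact one_le_pow₀ (by norm_num)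
  linarith

lemma fa_le (c j : ℕ) : fa c j ≤ 1 := by
  unfold fa
  have : (0 : ℝ) < 1 / (2 : ℝ) ^ (c + 2 * (j + 1)) := by positivity
  linarith

lemma summ (c : ℕ) : Summable fun j : ℕ => -(1 / (2 : ℝ) ^ (c + 2 * (j + 1))) := by
  refine Summable.neg ?_
  refine Summable.of_nonneg_of_le (fun j => by positivity) (fun j => ?_)
    (summable_geometric_two)
  rw [one_div_pow]
  refine one_div_le_one_div_of_le (by positivity) ?_
  exact pow_le_pow_right₀ (by norm_num) (by omega)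

lemma tend (c : ℕ) : Tendsto (fun m => ∏ j ∈ range m, fa c j) atTop (𝓝 (∏' j : ℕ, fa c j)) := by
  have h := Real.multipliable_one_add_of_summable (summ c)
  have h2 := h.hasProd.tendsto_prod_nat
  have e : ∀ j : ℕ, 1 + -(1 / (2 : ℝ) ^ (c + 2 * (j + 1))) = fa c j := fun j => by
    unfold fa
    ring
  simp only [e] at h2
  exact h2

lemma P_nonneg (c : ℕ) : 0 ≤ ∏' j : ℕ, fa c j :=
  ge_of_tendsto' (tend c) fun m => prod_nonneg fun j _ => fa_pos c j

lemma P_le_one (c : ℕ) : ∏' j : ℕ, fa c j ≤ 1 :=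
  le_of_tendsto' (tend c) fun m => prod_le_one (fun j _ => fa_pos c j) fun j _ => fa_le c j

lemma P_step (c : ℕ) : ∏' j : ℕ, fa c j = (1 - 1 / (2 : ℝ) ^ (c + 2)) * ∏' j : ℕ, fa (c + 2) j := by
  have h1 := (tendsto_add_atTop_iff_nat 1).2 (tend c)
  have h2 := (tend (c + 2)).const_mul (1 - 1 / (2 : ℝ) ^ (c + 2))
  refine tendsto_nhds_unique h1 (h2.congr fun m => ?_)
  rw [prod_range_succ']
  have e1 : fa c 0 = 1 - 1 / (2 : ℝ) ^ (c + 2) := by
    unfold fa
    norm_num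
  have e2 : ∀ j : ℕ, fa c (j + 1) = fa (c + 2) j := by
    intro j
    unfold fa
    rw [show c + 2 * (j + 1 + 1) = c + 2 + 2 * (j + 1) by ring]
  simp only [e2]
  rw [e1, mul_comm]

lemma main : ∀ k c : ℕ, (∏' j : ℕ, fa c j) * (1 - (k : ℝ) / 2 ^ (k + c)) ≤ R c k := by
  intro k
  induction k using Nat.twoStepInduction with
  | zero =>
    intro c
    simp only [R]
    have h := P_le_one c
    norm_num
    exact h
  | one =>
    intro c
    simp only [R]
    have h0 := P_nonneg c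
    have h1 := P_le_one c
    have h2 : (0 : ℝ) < ((1 : ℕ) : ℝ) / 2 ^ (1 + c) := by positivity
    nlinarith
  | more k ih _ =>
    intro c
    have h := ih (c + 2)
    set Q := ∏' j : ℕ, fa (c + 2) j with hQ
    have hQ0 : 0 ≤ Q := P_nonneg (c + 2)
    have hk : (k : ℝ) ≤ 2 ^ k := by exact_mod_cast (Nat.lt_two_pow_self (n := k)).le
    rw [P_step c, ← hQ]
    simp only [R]
    set a : ℝ := 2 ^ (c + 2) with ha
    set z : ℝ := 2 ^ k with hz
    have ha1 : 1 ≤ a := one_le_pow₀ (by norm_num)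
    have hz1 : 1 ≤ z := one_le_pow₀ (by norm_num)
    have e1 : (2 : ℝ) ^ (2 * k + c + 3) = 2 * z ^ 2 * a := by
      rw [hz, ha, ← pow_mul]
      rw [show 2 * k + c + 3 = 1 + k * 2 + (c + 2) by ring, pow_add, pow_add, pow_one]
    have e2 : (2 : ℝ) ^ (2 * k + 1) = 2 * z ^ 2 := by
      rw [hz, ← pow_mul, show 2 * k + 1 = 1 + k * 2 by ring, pow_add, pow_one]
    have e3 : (2 : ℝ) ^ (k + 2 + c) = z * a := by
      rw [hz, ha, ← pow_add]
      congr 1
      ring
    have e4 : (2 : ℝ) ^ (k + (c + 2)) = z * a := by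
      rw [hz, ha, ← pow_add]
    rw [e1, e2, e3]
    rw [e4] at h
    have hza : 0 < z * a := by positivity
    -- the first factor
    have f1 : (2 * z ^ 2 * a - 2 * z ^ 2) / (2 * z ^ 2 * a + 1) =
        (1 - 1 / a) * (2 * z ^ 2 * a / (2 * z ^ 2 * a + 1)) := by
      field_simp
    rw [f1]
    have hR : Q * (1 - (k : ℝ) / (z * a)) ≤ R (c + 2) k := h
    have hfac : 0 ≤ 1 - 1 / a := by
      have : 1 / a ≤ 1 := by
        rw [div_le_one (by positivity)]
        exact ha1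
      linarith
    have hkz : (k : ℝ) / (z * a) ≤ 1 := by
      rw [div_le_one hza]
      nlinarith
    have hX : (0 : ℝ) < 2 * z ^ 2 * a := by positivity
    have g1 : 1 - 1 / (2 * z ^ 2 * a) ≤ 2 * z ^ 2 * a / (2 * z ^ 2 * a + 1) := by
      rw [le_div_iff₀ (by positivity)]
      field_simp
      nlinarith
    have g2 : 1 / (2 * z ^ 2 * a) ≤ 2 / (z * a) := by
      rw [div_le_div_iff₀ hX hza]
      nlinarith [mul_pos hza hza, mul_nonneg (sub_nonneg.2 hz1) hza.le]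
    have g3 : (1 - ((k + 2 : ℕ) : ℝ) / (z * a)) ≤
        (2 * z ^ 2 * a / (2 * z ^ 2 * a + 1)) * (1 - (k : ℝ) / (z * a)) := by
      have s1 : (1 - 1 / (2 * z ^ 2 * a)) * (1 - (k : ℝ) / (z * a)) ≤
          (2 * z ^ 2 * a / (2 * z ^ 2 * a + 1)) * (1 - (k : ℝ) / (z * a)) :=
        mul_le_mul_of_nonneg_right g1 (by linarith)
      refine le_trans ?_ s1
      have s2 : ((k + 2 : ℕ) : ℝ) / (z * a) = (k : ℝ) / (z * a) + 2 / (z * a) := by
        push_cast
        ring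
      rw [s2]
      have s3 : 0 ≤ 1 / (2 * z ^ 2 * a) * ((k : ℝ) / (z * a)) := by positivity
      nlinarith
    have hXX : 0 ≤ 2 * z ^ 2 * a / (2 * z ^ 2 * a + 1) := by positivity
    calc (1 - 1 / a) * Q * (1 - ((k + 2 : ℕ) : ℝ) / (z * a))
        ≤ (1 - 1 / a) * Q * ((2 * z ^ 2 * a / (2 * z ^ 2 * a + 1)) * (1 - (k : ℝ) / (z * a))) :=
          mul_le_mul_of_nonneg_left g3 (mul_nonneg hfac hQ0)
      _ = (1 - 1 / a) * (2 * z ^ 2 * a / (2 * z ^ 2 * a + 1)) * (Q * (1 - (k : ℝ) / (z * a))) := by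
          ring
      _ ≤ (1 - 1 / a) * (2 * z ^ 2 * a / (2 * z ^ 2 * a + 1)) * R (c + 2) k :=
          mul_le_mul_of_nonneg_left hR (mul_nonneg hfac hXX)

theorem t_LIMX : S_LIMX := fun c k => main k c

end Pool.Agent.N986.QX
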