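import Pool.Agent.N987.QX.Stm4
import Pool.Agent.N986.QX.RED

/-!
# Project QX (helper987): leaf LOWX
-/

set_option autoImplicit false

namespace Pool.Agent.N986.QX

open Pool.Agent.N984.QX Pool.Agent.N987.QX Finset

theorem t_LOWX (h : S_FRAC) (h1 : S_STATE) (h2 : S_NE) : S_LOWX := by
  classical
  intro k c hc
  set n : ℕ := 2 * k + c with hn
  have hne : Even n := by
    rw [hn]
    exact (even_two_mul k).add hc
  have hfin : (Herm n).Finite := Set.toFinite _
  let HF : Finset (Submodule (ZMod 2) (Vc n)) := hfin.toFinset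
  have hHF : ∀ C, C ∈ HF ↔ C ∈ Herm n := fun C => hfin.mem_toFinset
  have hcard : Set.ncard (Herm n) = HF.card := Set.ncard_eq_toFinset_card _ hfin
  obtain ⟨C0, hC0⟩ := h2 n hne
  have hpos : 0 < HF.card := Finset.card_pos.2 ⟨C0, (hHF C0).2 hC0⟩
  -- the number of good sets
  let G : Submodule (ZMod 2) (Vc n) → ℕ := fun C =>
    ((Finset.powersetCard k (Finset.univ : Finset (Fin n))).filter (fun A => Good C A)).card
  have hg : ∀ A : Finset (Fin n), gN n A = (HF.filter (fun C => Good C A)).card := by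
    intro A
    unfold gN
    rw [← Set.ncard_coe_finset]
    congr 1
    ext C
    simp only [Set.mem_setOf_eq, Finset.coe_filter, hHF]
  have hsum : ∑ A ∈ Finset.powersetCard k (Finset.univ : Finset (Fin n)), gN n A =
      ∑ C ∈ HF, G C := by
    simp only [hg, G, Finset.card_filter]
    exact Finset.sum_comm
  have hlow : R c k * HF.card * (n.choose k) ≤ ((∑ C ∈ HF, G C : ℕ) : ℝ) := by
    rw [← hsum]
    push_cast
    have h3 : ∀ A ∈ Finset.powersetCard k (Finset.univ : Finset (Fin n)),
        R c k * HF.card ≤ (gN n A : ℝ) := by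
      intro A hA
      rw [← hcard]
      exact h k c A hc (Finset.mem_powersetCard.1 hA).2
    have h4 := Finset.card_nsmul_le_sum _ _ _ h3
    rw [Finset.card_powersetCard, Finset.card_univ, Fintype.card_fin, nsmul_eq_mul] at h4
    linarith
  obtain ⟨C, hC, hGC⟩ : ∃ C ∈ HF, R c k * (n.choose k) ≤ (G C : ℝ) := by
    by_contra hcon
    push Not at hcon
    have h5 : ∑ C ∈ HF, (G C : ℝ) < ∑ _C ∈ HF, R c k * (n.choose k) :=
      Finset.sum_lt_sum_of_nonempty ⟨C0, (hHF C0).2 hC0⟩ hcon
    rw [Finset.sum_const, nsmul_eq_mul] at h5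
    push_cast at hlow
    linarith
  obtain ⟨ψ, hψ, hgood⟩ := h1 n C ((hHF C).1 hC).1
  have h6 : G C ≤ numMixed k ψ := by
    unfold numMixed
    refine Finset.card_le_card ?_
    intro A hA
    rw [Finset.mem_filter] at hA ⊢
    exact ⟨hA.1, hgood A hA.2⟩
  have h7 : G C ≤ Qex n k := h6.trans (le_Qex k ψ hψ)
  have h8 : (G C : ℝ) ≤ Qex n k := by exact_mod_cast h7
  exact hGC.trans h8

end Pool.Agent.N986.QX
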