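import Pool.Agent.N987.QX.Stm4

/-!
# Project QX (helper987): leaf PERM
-/

set_option autoImplicit false

namespace Pool.Agent.N986.QX

open Pool.Agent.N984.QX Pool.Agent.N987.QX

/-- the code with permuted coordinates -/
def cp {n : ℕ} (p : Equiv.Perm (Fin n)) (C : Submodule (ZMod 2) (Vc n)) :
    Submodule (ZMod 2) (Vc n) :=
  C.comap (LinearMap.funLeft (ZMod 2) (ZMod 2 × ZMod 2) p)

lemma mem_cp {n : ℕ} (p : Equiv.Perm (Fin n)) (C : Submodule (ZMod 2) (Vc n)) (w : Vc n) :
    w ∈ cp p C ↔ (fun i => w (p i)) ∈ C := Iff.rfl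

lemma B_perm {n : ℕ} (p : Equiv.Perm (Fin n)) (v w : Vc n) :
    B (fun i => v (p i)) (fun i => w (p i)) = B v w := by
  unfold B
  exact Equiv.sum_comp p (fun i => (v i).1 * (w i).2 + (v i).2 * (w i).1)

lemma cp_herm {n : ℕ} (p : Equiv.Perm (Fin n)) (C : Submodule (ZMod 2) (Vc n))
    (hC : C ∈ Herm n) : cp p C ∈ Herm n := by
  refine ⟨?_, ?_⟩
  · intro w
    rw [mem_cp, hC.1]
    constructor
    · intro h u hu
      rw [← B_perm p]
      exact h _ ((mem_cp p C u).1 hu)
    · intro h u hu
      have e : (fun i => u (p.symm (p i))) = u := by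
        funext i
        simp
      have e2 : B (fun i => w (p i)) (fun i => u (p.symm (p i))) = B w (fun j => u (p.symm j)) :=
        B_perm p w (fun j => u (p.symm j))
      rw [e] at e2
      rw [e2]
      refine h _ ?_
      have h3 : (fun i => u (p.symm (p i))) ∈ C := by
        rw [e]
        exact hu
      exact h3
  · intro w hw
    rw [mem_cp] at hw ⊢
    exact hC.2 _ hw

lemma cp_good {n : ℕ} (p : Equiv.Perm (Fin n)) (C : Submodule (ZMod 2) (Vc n))
    (A : Finset (Fin n)) (h : Good C A) : Good (cp p C) (A.map p.toEmbedding) := by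
  intro w hw hs
  have h1 := h _ ((mem_cp p C w).1 hw) (by
    intro i hi
    refine hs (p i) ?_
    intro hh
    rw [Finset.mem_map] at hh
    obtain ⟨j, hj, hji⟩ := hh
    exact hi (by rwa [← p.injective hji]))
  funext i
  have h2 := congrFun h1 (p.symm i)
  simpa using h2

lemma cp_inj {n : ℕ} (p : Equiv.Perm (Fin n)) (C C' : Submodule (ZMod 2) (Vc n))
    (h : cp p C = cp p C') : C = C' := by
  ext v
  have e : (fun i => v (p.symm (p i))) = v := by
    funext i
    simp
  have h1 : (fun i => v (p.symm (p i))) ∈ C ↔ (fun i => v (p.symm (p i))) ∈ C' :=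
    SetLike.ext_iff.1 h (fun j => v (p.symm j))
  rwa [e] at h1

lemma perm_le {n : ℕ} (p : Equiv.Perm (Fin n)) (A : Finset (Fin n)) :
    gN n A ≤ gN n (A.map p.toEmbedding) := by
  unfold gN
  refine Set.ncard_le_ncard_of_injOn (cp p) ?_ ?_ (Set.toFinite _)
  · rintro C ⟨h1, h2⟩
    exact ⟨cp_herm p C h1, cp_good p C A h2⟩
  · intro C _ C' _ h
    exact cp_inj p C C' h

theorem t_PERM : S_PERM := by
  intro n p A
  refine le_antisymm ?_ (perm_le p A)
  have h := perm_le p.symm (A.map p.toEmbedding)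
  have e : (A.map p.toEmbedding).map p.symm.toEmbedding = A := by
    ext i
    simp
  rwa [e] at h

end Pool.Agent.N986.QX
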